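import Pool.Agent.Helper20.EQ.St5

/-! Project EQ (MP_cb927e_an), module LOW: the first level. -/

set_option autoImplicit false

open MeasureTheory Set Filter Topology
open scoped ENNReal RealInnerProductSpace

namespace Pool.Agent.Helper42.EQ

open Pool.Agent.Helper68.LM (Pl BB Bd Av HL ft fm DQ)
open Pool.Agent.Helper20.RG Pool.Agent.Helper20.EQ
open Pool.Agent.Helper68.EP (elt GapP StGPG)

theorem fh_nonneg (l : ℤ) {f : Pl → ℝ} (hf : ∀ x, 0 ≤ f x) (x : Pl) : 0 ≤ fh l f x := by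
  unfold fh
  split_ifs
  · exact hf x
  · exact le_rfl

theorem fh_le_sq (l : ℤ) {f : Pl → ℝ} (x : Pl) :
    fh l f x ≤ (2 : ℝ) ^ (1 - l) * f x ^ 2 := by
  unfold fh
  split_ifs with h
  · have h2 : (0 : ℝ) < (2 : ℝ) ^ (l - 1) := by positivity
    have hpos : 0 < f x := lt_of_lt_of_le h2 h
    have h3 : (2 : ℝ) ^ (1 - l) * (2 : ℝ) ^ (l - 1) = 1 := by
      rw [← zpow_add₀ two_ne_zero]
      simp
    have h4 : (0 : ℝ) < (2 : ℝ) ^ (1 - l) := by positivity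
    have h5 : (2 : ℝ) ^ (1 - l) * (2 : ℝ) ^ (l - 1) ≤ (2 : ℝ) ^ (1 - l) * f x :=
      mul_le_mul_of_nonneg_left h h4.le
    rw [h3] at h5
    nlinarith
  · positivity

theorem fh_BB (l : ℤ) {f : Pl → ℝ} (hB : BB f) : BB (fh l f) := by
  obtain ⟨hm, K, hK, hK2⟩ := hB
  refine ⟨?_, K, ?_, ?_⟩
  · exact Measurable.ite (measurableSet_le measurable_const hm) hm measurable_const
  · intro x
    unfold fh
    split_ifs
    · exact hK x
    · rw [abs_zero]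
      exact le_trans (abs_nonneg _) (hK x)
  · intro x hx
    unfold fh
    rw [hK2 x hx]
    split_ifs <;> rfl

theorem HL_fh (l : ℤ) {f : Pl → ℝ} (hf : ∀ x, 0 ≤ f x) (ρ : ℝ) (x : Pl) :
    HL ρ (fh l f) x ≤ ENNReal.ofReal ((2 : ℝ) ^ (1 - l)) * HL ρ (fun y => f y ^ 2) x := by
  unfold HL
  rw [ENNReal.mul_iSup]
  refine iSup_mono fun k => ?_
  rw [← lintegral_const_mul' _ _ ENNReal.ofReal_ne_top]
  refine lintegral_mono fun w => ?_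
  change ‖fh l f (x - (2 : ℝ) ^ k • w)‖ₑ ≤
    ENNReal.ofReal ((2 : ℝ) ^ (1 - l)) * ‖f (x - (2 : ℝ) ^ k • w) ^ 2‖ₑ
  rw [Real.enorm_eq_ofReal (fh_nonneg l hf _), Real.enorm_eq_ofReal (sq_nonneg _),
    ← ENNReal.ofReal_mul (by positivity)]
  exact ENNReal.ofReal_le_ofReal (fh_le_sq l _)

theorem hLOW (hHLY : StHLY) (hSYS : StSYS) (hGPG : StGPG) : StLOW := by
  intro φ τ A p c hG hA hgap hp
  have hp0 : 0 < p := by linarith
  have hA' : 0 < A ^ (1 / p) := Real.rpow_pos_of_pos hA _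
  have hgap' : Gap (A ^ (1 / p)) p τ := hGPG τ A p hA hp0 hgap
  have hS := (hSYS φ τ (A ^ (1 / p)) p c hG hgap' hA' hp0 1 le_rfl).1
  set R : ℝ := ‖c‖ + |φ 0| + 3 with hR
  set K : ℕ := KA (A ^ (1 / p)) p 1 with hK
  have hR0 : 0 ≤ R := by positivity
  have h4K : (1 : ℝ) ≤ (4 : ℝ) ^ K := one_le_pow₀ (by norm_num)
  refine ⟨2 * (R + 3) + 2 * (4 : ℝ) ^ K, by linarith, ?_⟩
  intro R₀ f l k x hC hB hf hGd
  have hρ : 2 * (R + 3) ≤ R₀ := by linarith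
  have h2l : (0 : ℝ) < (2 : ℝ) ^ l := by positivity
  have hpow : (2 : ℝ) ^ (1 - l) * (4 : ℝ) ^ l = 2 * (2 : ℝ) ^ l := by
    have h4 : (4 : ℝ) ^ l = (2 : ℝ) ^ l * (2 : ℝ) ^ l := by
      rw [← mul_zpow]
      norm_num
    rw [zpow_sub₀ two_ne_zero, zpow_one, h4]
    field_simp
  have hHL : HL R₀ (fh l f) x ≤ ENNReal.ofReal (2 * (2 : ℝ) ^ l) := by
    calc HL R₀ (fh l f) x
        ≤ ENNReal.ofReal ((2 : ℝ) ^ (1 - l)) * HL R₀ (fun y => f y ^ 2) x := HL_fh l hf R₀ x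
      _ ≤ ENNReal.ofReal ((2 : ℝ) ^ (1 - l)) * ENNReal.ofReal ((4 : ℝ) ^ l) := by
          gcongr
          exact hGd
      _ = ENNReal.ofReal (2 * (2 : ℝ) ^ l) := by
          rw [← ENNReal.ofReal_mul (by positivity), hpow]
  have hY : ∀ j ∈ Finset.range (2 ^ 1),
      Y (τ (tm 1 j)) (ce c φ 1 j) (mm τ 1 j) (1 / (2 : ℝ) ^ 1) k (fh l f) x ≤
        (4 : ℝ) ^ K * (2 * (2 : ℝ) ^ l) := by
    intro j hj
    have hj' : j < 2 ^ 1 := Finset.mem_range.1 hj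
    have h1 := hHLY (τ (tm 1 j)) (ce c φ 1 j) (mm τ 1 j) (1 / (2 : ℝ) ^ 1) R R₀ k (fh l f) x
      (hS.slope j hj') (hS.cen j hj') (by norm_num) (by norm_num) hρ (fh_BB l hB)
      (fh_nonneg l hf)
    have h2 : ENNReal.ofReal
        (Y (τ (tm 1 j)) (ce c φ 1 j) (mm τ 1 j) (1 / (2 : ℝ) ^ 1) k (fh l f) x) ≤
        ENNReal.ofReal ((4 : ℝ) ^ (mm τ 1 j) * (2 * (2 : ℝ) ^ l)) := by
      refine h1.trans ?_
      rw [ENNReal.ofReal_mul (by positivity)]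
      gcongr
    have h3 := (ENNReal.ofReal_le_ofReal_iff (by positivity)).1 h2
    refine h3.trans ?_
    have h4 : (4 : ℝ) ^ (mm τ 1 j) ≤ (4 : ℝ) ^ K :=
      pow_le_pow_right₀ (by norm_num) (hS.mm j hj').2
    gcongr
  have hsum : ∑ j ∈ Finset.range (2 ^ 1),
      Y (τ (tm 1 j)) (ce c φ 1 j) (mm τ 1 j) (1 / (2 : ℝ) ^ 1) k (fh l f) x ≤
        ∑ _j ∈ Finset.range (2 ^ 1), (4 : ℝ) ^ K * (2 * (2 : ℝ) ^ l) := Finset.sum_le_sum hY
  rw [Finset.sum_const, Finset.card_range, nsmul_eq_mul] at hsum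
  change (1 / (2 : ℝ) ^ 1) * ∑ j ∈ Finset.range (2 ^ 1),
    Y (τ (tm 1 j)) (ce c φ 1 j) (mm τ 1 j) (1 / (2 : ℝ) ^ 1) k (fh l f) x ≤ _
  have h5 : 0 ≤ 2 * (R + 3) * (2 : ℝ) ^ l := by positivity
  norm_num at hsum ⊢
  nlinarith

end Pool.Agent.Helper42.EQ
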